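import Pool.Agent.Helper49.GD.Run
import Pool.Agent.Helper30.EV3.Low
import Pool.Agent.Helper57.PD.H3G

/-!
# GPOLY: the closed run of a cut shadow, and the vanishing of the face values from the run

`run_of`: the equations `N = ζ S + (1 - ζ) κ (W + E) + er` on the faces of a cut shadow, in the order of a list of all
crossings, are a `Run`. `exists_run`: for a shadow of the class `Good s`. `zero_of_run`: if in every closed run without
errors all the defects vanish, a solution which vanishes on both sides of an edge is zero.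
-/

set_option autoImplicit false

namespace Pool.Agent.Helper30.GD

open Pool.Agent.Helper41.PD Pool.Agent.Helper85.Exp Pool.Agent.Helper2.PD Pool.Agent.Helper30.EV3
  Pool.Agent.Helper57.PD Pool.Agent.Helper49.GD Pool.Agent.Helper16.PD Pool.Agent.Helper60.EV2 Pool.Agent.Helper27.EV2

open Pool.Agent.Helper29.PD (crs Bxs)

variable {P : Type} [Fintype P] {G : Sh P} {C : Finset P} {τ : P → ℕ}

theorem kappa_pr (ho : ∀ i, G.op i ≠ i) {k : Face G → ℤ} (hk : ∀ i, k (Lf G i) = k (Rf G i) + 1) (e : P) :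
    k (Lf G (pr G.nxt G.op e)) = k (Lf G e) := by
  have h := kappa_seifert ho k hk (pr G.nxt G.op e)
  rw [Cut.nxt_pr, G.op_op] at h
  exact h.symm

theorem kappa_lab (ho : ∀ i, G.op i ≠ i) (H : Cut G.nxt G.op C τ) {k : Face G → ℤ}
    (hk : ∀ i, k (Lf G i) = k (Rf G i) + 1) (e : P) : k (Lf G (H.lab e)) = k (Lf G e) := by
  unfold Cut.lab
  have key : ∀ n : ℕ, ∀ e, k (Lf G ((pr G.nxt G.op)^[n] e)) = k (Lf G e) := by
    intro n
    induction n with
    | zero => intro e; rfl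
    | succ n ih =>
      intro e
      rw [Function.iterate_succ_apply, ih, kappa_pr ho hk]
  exact key _ _

theorem kappa_labR (ho : ∀ i, G.op i ≠ i) (H : Cut G.nxt G.op C τ) {k : Face G → ℤ}
    (hk : ∀ i, k (Lf G i) = k (Rf G i) + 1) (e : P) : k (Rf G (H.lab e)) = k (Rf G e) := by
  have h1 := kappa_lab ho H hk e
  rw [hk, hk] at h1
  omega

theorem lab_arc (H : Cut G.nxt G.op C τ) (l : {x // x ∈ C}) : H.lab (arcPerm H l).1 = l.1 := by
  have h2 : (arcPerm H).symm (arcPerm H l) = l := Equiv.symm_apply_apply _ _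
  have h3 : (arcPerm H).symm (arcPerm H l) = lb H (arcPerm H l).1 := rfl
  rw [h3] at h2
  exact congrArg Subtype.val h2

/-- the edge of the label `i` after the first `t` crossings of the list -/
noncomputable def cu (H : Cut G.nxt G.op C τ) (X : List P) (t : ℕ) (i : {x // x ∈ C}) : P :=
  stt H (fun l => l.1) (X.take t) i

/-- what is known about the crossing `t` of the list -/
theorem cu_at (H : Cut G.nxt G.op C τ) {X : List P} (hord : Ord H X)
    (hall : ∀ e, e ∈ X ∨ G.op e ∈ X)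
    (hne : ∀ p ∈ X, H.lab p ≠ H.lab (G.op p)) (d : P) {t : ℕ} (ht : t < X.length) :
    X.getD t d ∈ X ∧ cu H X t (lb H (X.getD t d)) = pr G.nxt G.op (X.getD t d) ∧
      cu H X t (lb H (G.op (X.getD t d))) = pr G.nxt G.op (G.op (X.getD t d)) ∧
      cu H X (t + 1) = stp H (cu H X t) (X.getD t d) := by
  have hmem : X.getD t d ∈ X := by
    rw [List.getD_eq_getElem _ _ ht]
    exact List.getElem_mem _
  have hsplit : X = X.take t ++ X.getD t d :: X.drop (t + 1) := by
    rw [List.getD_eq_getElem _ _ ht, ← List.drop_eq_getElem_cons ht, List.take_append_drop]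
  have hcur := cur_at (H := H) (pre := X.take t) (p := X.getD t d) (suf := X.drop (t + 1))
    (by rw [← hsplit]; exact hord) (by rw [← hsplit]; exact hall) (by rw [← hsplit]; exact hne)
  refine ⟨hmem, hcur.1, hcur.2, ?_⟩
  show stt H (fun l => l.1) (X.take (t + 1)) = stp H (stt H (fun l => l.1) (X.take t)) (X.getD t d)
  rw [List.take_succ_eq_append_getElem ht, stt_append, List.getD_eq_getElem _ _ ht]
  rfl

/-- **The closed run of a cut shadow.** -/
theorem run_of (ho : ∀ i, G.op i ≠ i) (H : Cut G.nxt G.op C τ) {k : Face G → ℤ}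
    (hk : ∀ i, k (Lf G i) = k (Rf G i) + 1) {X : List P} (hord : Ord H X)
    (hall : ∀ e, e ∈ X ∨ G.op e ∈ X) (hlf : ∀ p ∈ X, G.lf p = true)
    (hne : ∀ p ∈ X, H.lab p ≠ H.lab (G.op p)) (d : P) {ζ κ : ℂ} {c : Face G → ℂ} {er : P → ℂ}
    (hrow : ∀ p, G.lf p = true → c (Rf G p) =
      ζ * c (Lf G (G.nxt.symm p)) + (1 - ζ) * κ * (c (Lf G p) + c (Rf G (G.op p))) + er p) :
    Run {x // x ∈ C} ζ κ X.length (fun i => k (Rf G i.1)) (fun t => lb H (X.getD t d))
      (fun t => lb H (G.op (X.getD t d))) (fun t i => c (Lf G (cu H X t i))) (fun t i => c (Rf G (cu H X t i)))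
      (fun t => er (X.getD t d)) (arcPerm H) := by
  have hS : ∀ p, G.lf p = true → Rf G (pr G.nxt G.op p) = Lf G (pr G.nxt G.op (G.op p)) := fun p hp => by
    have h := corner_S hp
    unfold pr
    rw [G.op_op]
    exact h.symm
  have hW : ∀ p, G.lf p = true → Lf G (pr G.nxt G.op p) = Lf G p := fun p hp => (corner_W hp (ho p)).symm
  have hE : ∀ p, G.lf p = true → Rf G (pr G.nxt G.op (G.op p)) = Rf G (G.op p) := fun p hp => by
    have h := corner_E hp (ho p)
    unfold pr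
    rw [G.op_op]
    exact h
  have hS' : ∀ p, G.lf p = true → Rf G (pr G.nxt G.op p) = Lf G (G.nxt.symm p) := fun p hp => (corner_S hp).symm
  refine ⟨?_, ?_, ?_, ?_, ?_, ?_, ?_, ?_, ?_, ?_, ?_, ?_⟩
  · intro t ht h
    obtain ⟨hm, -, -, -⟩ := cu_at H hord hall hne d ht
    exact hne _ hm (lb_inj.1 h)
  · intro t ht
    obtain ⟨hm, -, -, -⟩ := cu_at H hord hall hne d ht
    show k (Rf G (H.lab (X.getD t d))) = k (Rf G (H.lab (G.op (X.getD t d)))) + 1
    rw [kappa_labR ho H hk, kappa_labR ho H hk, corner_N (hlf _ hm), hk]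
  · intro t ht
    obtain ⟨hm, h1, h2, -⟩ := cu_at H hord hall hne d ht
    show c (Rf G (cu H X t (lb H (X.getD t d)))) = c (Lf G (cu H X t (lb H (G.op (X.getD t d)))))
    rw [h1, h2, hS _ (hlf _ hm)]
  · intro t ht
    obtain ⟨hm, -, -, h3⟩ := cu_at H hord hall hne d ht
    show c (Rf G (cu H X (t + 1) (lb H (X.getD t d)))) = c (Lf G (cu H X (t + 1) (lb H (G.op (X.getD t d)))))
    rw [h3, stp_left, stp_right (hne _ hm), corner_N (hlf _ hm)]
  · intro t ht
    obtain ⟨hm, h1, -, h3⟩ := cu_at H hord hall hne d ht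
    show c (Lf G (cu H X (t + 1) (lb H (X.getD t d)))) = c (Lf G (cu H X t (lb H (X.getD t d))))
    rw [h3, stp_left, h1, hW _ (hlf _ hm)]
  · intro t ht
    obtain ⟨hm, -, h2, h3⟩ := cu_at H hord hall hne d ht
    show c (Rf G (cu H X (t + 1) (lb H (G.op (X.getD t d))))) = c (Rf G (cu H X t (lb H (G.op (X.getD t d)))))
    rw [h3, stp_right (hne _ hm), h2, hE _ (hlf _ hm)]
  · intro t ht i h1 h2
    obtain ⟨hm, -, -, h3⟩ := cu_at H hord hall hne d ht
    show c (Lf G (cu H X (t + 1) i)) = c (Lf G (cu H X t i))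
    rw [h3, stp_of_ne h1 h2]
  · intro t ht i h1 h2
    obtain ⟨hm, -, -, h3⟩ := cu_at H hord hall hne d ht
    show c (Rf G (cu H X (t + 1) i)) = c (Rf G (cu H X t i))
    rw [h3, stp_of_ne h1 h2]
  · intro t ht
    obtain ⟨hm, h1, h2, h3⟩ := cu_at H hord hall hne d ht
    show c (Rf G (cu H X (t + 1) (lb H (X.getD t d)))) = ζ * c (Rf G (cu H X t (lb H (X.getD t d)))) +
      (1 - ζ) * κ * (c (Lf G (cu H X t (lb H (X.getD t d)))) + c (Rf G (cu H X t (lb H (G.op (X.getD t d)))))) +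
      er (X.getD t d)
    rw [h3, stp_left, h1, h2, hW _ (hlf _ hm), hE _ (hlf _ hm), hS' _ (hlf _ hm)]
    exact hrow _ (hlf _ hm)
  · intro i
    show k (Rf G (arcPerm H i).1) = k (Rf G i.1)
    rw [← kappa_labR ho H hk (arcPerm H i).1, lab_arc]
  · intro i
    show c (Lf G (cu H X X.length i)) = c (Lf G (cu H X 0 (arcPerm H i)))
    unfold cu
    rw [List.take_length, cur_end' hord hall hne i]
    rfl
  · intro i
    show c (Rf G (cu H X X.length i)) = c (Rf G (cu H X 0 (arcPerm H i)))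
    unfold cu
    rw [List.take_length, cur_end' hord hall hne i]
    rfl

/-- the three faces at the crossing `t`, in terms of the labels -/
theorem cu_faces (ho : ∀ i, G.op i ≠ i) (H : Cut G.nxt G.op C τ) {X : List P} (hord : Ord H X)
    (hall : ∀ e, e ∈ X ∨ G.op e ∈ X) (hlf : ∀ p ∈ X, G.lf p = true)
    (hne : ∀ p ∈ X, H.lab p ≠ H.lab (G.op p)) (d : P) {t : ℕ} (ht : t < X.length) :
    Lf G (cu H X t (lb H (X.getD t d))) = Lf G (X.getD t d) ∧
    Rf G (cu H X t (lb H (X.getD t d))) = Lf G (G.nxt.symm (X.getD t d)) ∧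
    Lf G (cu H X t (lb H (G.op (X.getD t d)))) = Lf G (G.nxt.symm (X.getD t d)) ∧
    Rf G (cu H X t (lb H (G.op (X.getD t d)))) = Rf G (G.op (X.getD t d)) := by
  obtain ⟨hm, h1, h2, -⟩ := cu_at H hord hall hne d ht
  have hp := hlf _ hm
  rw [h1, h2]
  refine ⟨(corner_W hp (ho _)).symm, (corner_S hp).symm, ?_, ?_⟩
  · unfold pr
    rw [G.op_op]
  · unfold pr
    rw [G.op_op]
    exact corner_E hp (ho _)

/-- **The closed run of a shadow of the class.** The labels are at most `s ^ 3`, the levels are between `0` and `s`,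
`X` lists the crossings, `cur t i` is the edge of the label `i` before the crossing `t`. -/
theorem exists_run {s : ℕ} (h : Good s G) (hP : Nonempty P) :
    ∃ (ι : Type) (_ : Fintype ι) (_ : DecidableEq ι) (lv : ι → ℤ) (X : List P) (d : P) (l r : ℕ → ι)
      (cur : ℕ → ι → P) (σ : Equiv.Perm ι) (k : Face G → ℤ),
      Fintype.card ι ≤ s * s * s ∧ 0 < Fintype.card ι ∧ (∀ i, 0 ≤ lv i ∧ lv i + 1 ≤ s) ∧ (∀ f, 0 ≤ k f ∧ k f ≤ s) ∧
      (∀ e, k (Lf G e) = k (Rf G e) + 1) ∧ X.Nodup ∧ (∀ p, p ∈ X ↔ G.lf p = true) ∧ X.length = Nat.card (Cr G) ∧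
      (∀ t < X.length, lv (l t) = k (Lf G (G.nxt.symm (X.getD t d))) ∧
        Lf G (cur t (l t)) = Lf G (X.getD t d) ∧ Rf G (cur t (l t)) = Lf G (G.nxt.symm (X.getD t d)) ∧
        Lf G (cur t (r t)) = Lf G (G.nxt.symm (X.getD t d)) ∧ Rf G (cur t (r t)) = Rf G (G.op (X.getD t d))) ∧
      ∀ (ζ κ : ℂ) (c : Face G → ℂ) (er : P → ℂ), (∀ p, G.lf p = true → c (Rf G p) =
          ζ * c (Lf G (G.nxt.symm p)) + (1 - ζ) * κ * (c (Lf G p) + c (Rf G (G.op p))) + er p) →
        Run ι ζ κ X.length lv l r (fun t i => c (Lf G (cur t i))) (fun t i => c (Rf G (cur t i)))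
          (fun t => er (X.getD t d)) σ := by
  classical
  have : Fintype (Face G) := Fintype.ofFinite _
  obtain ⟨C, τ, H, Bs, x0, h1, h2, h3, h5, hx0⟩ := exists_data h hP
  obtain ⟨k0, hk0⟩ := exists_kappa h.hc h.ho h.hp
  -- the index starts at zero
  obtain ⟨f0, -, hf0⟩ := Finset.exists_min_image (Finset.univ : Finset (Face G)) k0 ⟨Lf G x0, Finset.mem_univ _⟩
  obtain ⟨k, hkd⟩ : ∃ k : Face G → ℤ, k = fun f => k0 f - k0 f0 := ⟨_, rfl⟩
  have hk : ∀ i, k (Lf G i) = k (Rf G i) + 1 := fun i => by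
    rw [hkd]
    have := hk0 i
    show k0 (Lf G i) - k0 f0 = k0 (Rf G i) - k0 f0 + 1
    omega
  have hkb : ∀ f, 0 ≤ k f ∧ k f ≤ s := fun f => by
    have h6 := kappa_le h.hc h.ho k0 hk0 (sg G) (sg_apply G) h.hs f f0
    have h7 := hf0 f (Finset.mem_univ _)
    rw [abs_le] at h6
    rw [hkd]
    exact ⟨by show 0 ≤ k0 f - k0 f0; omega, by show k0 f - k0 f0 ≤ s; omega⟩
  have hB : Bxs H Bs := h5.bxs
  have hX : ∀ p, p ∈ crs Bs ↔ G.lf p = true := hB.all
  have hlf : ∀ p ∈ crs Bs, G.lf p = true := fun p hp => (hX p).1 hp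
  have hne : ∀ p ∈ crs Bs, H.lab p ≠ H.lab (G.op p) := fun p hp => hne_of hB hp
  have hall := hall_of hB h.ho
  refine ⟨{x // x ∈ C}, inferInstance, inferInstance, fun i => k (Rf G i.1), crs Bs, x0,
    fun t => lb H ((crs Bs).getD t x0), fun t => lb H (G.op ((crs Bs).getD t x0)), cu H (crs Bs), arcPerm H, k,
    ?_, ?_, ?_, hkb, hk, ?_, hX, crs_length h5, ?_, ?_⟩
  · rw [Fintype.card_coe]
    exact h1
  · rw [Fintype.card_coe]
    exact Finset.card_pos.2 ⟨x0, hx0⟩
  · intro i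
    refine ⟨(hkb _).1, ?_⟩
    show k (Rf G i.1) + 1 ≤ s
    rw [← hk]
    exact (hkb _).2
  · refine List.Pairwise.imp ?_ h5.srt
    rintro a b hab rfl
    exact lt_irrefl _ hab
  · intro t ht
    have hf := cu_faces h.ho H hB.ord hall hlf hne x0 ht
    obtain ⟨hm, -, -, -⟩ := cu_at H hB.ord hall hne x0 ht
    refine ⟨?_, hf⟩
    show k (Rf G (H.lab ((crs Bs).getD t x0))) = _
    rw [kappa_labR h.ho H hk]
    have h8 := hk (pr G.nxt G.op ((crs Bs).getD t x0))
    rw [kappa_pr h.ho hk, hk] at h8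
    have h9 : Rf G (pr G.nxt G.op ((crs Bs).getD t x0)) = Lf G (G.nxt.symm ((crs Bs).getD t x0)) :=
      (corner_S (hlf _ hm)).symm
    rw [h9] at h8
    omega
  · intro ζ κ c er hrow
    exact run_of h.ho H hk hB.ord hall hlf hne x0 hrow

/-- A solution which vanishes on both sides of an edge is zero, if at every crossing `S = N = κ (W + E)`. -/
theorem face_zero (ho : ∀ i, G.op i ≠ i) (hc : Conn G) {κ : ℂ} (hκ : κ ≠ 0) {c : Face G → ℂ}
    (each : ∀ p, G.lf p = true → c (Lf G (G.nxt.symm p)) = κ * (c (Lf G p) + c (Rf G (G.op p))) ∧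
      c (Rf G p) = κ * (c (Lf G p) + c (Rf G (G.op p))))
    {e₀ : P} (h1 : c (Lf G e₀) = 0) (h2 : c (Rf G e₀) = 0) (f : Face G) : c f = 0 := by
  -- the four edges of a crossing vanish together
  let Z : P → Prop := fun e => c (Lf G e) = 0 ∧ c (Rf G e) = 0
  have four : ∀ p, G.lf p = true → (Z (G.nxt.symm p) ∨ Z (G.nxt.symm (G.op p)) ∨ Z p ∨ Z (G.op p)) →
      (Z (G.nxt.symm p) ∧ Z (G.nxt.symm (G.op p)) ∧ Z p ∧ Z (G.op p)) := by
    intro p hp h
    obtain ⟨a1, a2⟩ := each p hp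
    have cE := corner_E hp (ho p)
    have cS := corner_S hp
    have cW := corner_W hp (ho p)
    have cN := corner_N hp
    have key : c (Lf G p) = 0 ∧ c (Rf G (G.op p)) = 0 := by
      rcases h with ⟨b1, b2⟩ | ⟨b1, b2⟩ | ⟨b1, b2⟩ | ⟨b1, b2⟩
      · rw [cE] at b2
        rw [b1, b2, add_zero] at a1
        exact ⟨(mul_eq_zero.1 a1.symm).resolve_left hκ, b2⟩
      · rw [← cW] at b1
        rw [← cS] at b2
        rw [b1, b2, zero_add] at a1
        exact ⟨b1, (mul_eq_zero.1 a1.symm).resolve_left hκ⟩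
      · rw [b1, b2, zero_add] at a2
        exact ⟨b1, (mul_eq_zero.1 a2.symm).resolve_left hκ⟩
      · rw [← cN] at b1
        rw [b1, b2, add_zero] at a2
        exact ⟨(mul_eq_zero.1 a2.symm).resolve_left hκ, b2⟩
    obtain ⟨k1, k2⟩ := key
    rw [k1, k2, add_zero, mul_zero] at a1 a2
    refine ⟨⟨a1, by rw [cE]; exact k2⟩, ⟨by rw [← cW]; exact k1, by rw [← cS]; exact a1⟩, ⟨k1, a2⟩, ⟨by rw [← cN]; exact a2, k2⟩⟩
  have all : ∀ v, Z (G.nxt.symm v) := by
    have step : ∀ v, Z (G.nxt.symm v) → Z v ∧ Z (G.nxt.symm (G.op v)) := by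
      intro v hv
      cases hl : G.lf v with
      | true =>
        have := four v hl (Or.inl hv)
        exact ⟨this.2.2.1, this.2.1⟩
      | false =>
        have hl' : G.lf (G.op v) = true := by rw [G.lf_op v (ho v), hl]; rfl
        have := four (G.op v) hl' (Or.inr (Or.inl (by rw [G.op_op]; exact hv)))
        rw [G.op_op] at this
        exact ⟨this.2.2.2, this.1⟩
    have step' : ∀ v, Z v → Z (G.nxt.symm v) := by
      intro v hv
      cases hl : G.lf v with
      | true => exact (four v hl (Or.inr (Or.inr (Or.inl hv)))).1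
      | false =>
        have hl' : G.lf (G.op v) = true := by rw [G.lf_op v (ho v), hl]; rfl
        have := four (G.op v) hl' (Or.inr (Or.inr (Or.inr (by rw [G.op_op]; exact hv))))
        rw [G.op_op] at this
        exact this.2.1
    refine hc (fun v => Z (G.nxt.symm v)) ⟨G.nxt e₀, ?_⟩ ?_ ?_
    · show Z (G.nxt.symm (G.nxt e₀))
      rw [Equiv.symm_apply_apply]
      exact ⟨h1, h2⟩
    · intro v
      show Z (G.nxt.symm (G.nxt v)) ↔ _
      rw [Equiv.symm_apply_apply]
      exact ⟨step' v, fun h => (step v h).1⟩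
    · intro v
      constructor
      · intro h
        have := (step _ h).2
        rwa [G.op_op] at this
      · intro h
        exact (step _ h).2
  have all' : ∀ v, Z v := by
    intro v
    have := all (G.nxt v)
    rwa [Equiv.symm_apply_apply] at this
  exact face_ind (p := fun f => c f = 0) (fun i => (all' i).1) (fun i => (all' i).2) f

/-- **The kernel from the closed runs.** If all defects vanish in every closed run with at most `s ^ 3` labels and levels
between `0` and `s`, a solution without errors which vanishes on both sides of an edge is zero. -/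
theorem zero_of_run {s : ℕ} (h : Good s G) {ζ κ : ℂ} (hκ : κ ≠ 0)
    (K : ∀ (ι : Type) [Fintype ι] [DecidableEq ι] (m : ℕ) (lv : ι → ℤ) (l r : ℕ → ι) (vl vr : ℕ → ι → ℂ)
      (σ : Equiv.Perm ι), Fintype.card ι ≤ s * s * s → 0 < Fintype.card ι → (∀ i, 0 ≤ lv i ∧ lv i + 1 ≤ s) →
      Run ι ζ κ m lv l r vl vr (fun _ => 0) σ → ∀ t < m, vl t (l t) + vr t (r t) - vr t (l t) / κ = 0)
    (c : Face G → ℂ)
    (hrow : ∀ p, G.lf p = true →
      c (Rf G p) - ζ * c (Lf G (G.nxt.symm p)) - (1 - ζ) * κ * (c (Lf G p) + c (Rf G (G.op p))) = 0)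
    {e₀ : P} (h1 : c (Lf G e₀) = 0) (h2 : c (Rf G e₀) = 0) (f : Face G) : c f = 0 := by
  classical
  obtain ⟨ι, i1, i2, lv, X, d, l, r, cur, σ, k, a1, a2, a3, a4, a5, a6, a7, a8, a9, a10⟩ := exists_run h ⟨e₀⟩
  have hR := a10 ζ κ c (fun _ => 0) (fun p hp => by linear_combination hrow p hp)
  have hd := K ι X.length lv l r _ _ σ a1 a2 a3 hR
  refine face_zero h.ho h.hc hκ (fun p hp => ?_) h1 h2 f
  obtain ⟨t, ht, htp⟩ := List.getElem_of_mem ((a7 p).2 hp)
  have h3 := hd t ht
  obtain ⟨-, b1, b2, -, b4⟩ := a9 t ht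
  have h4 : X.getD t d = p := by rw [List.getD_eq_getElem _ _ ht]; exact htp
  simp only [b1, b2, b4, h4] at h3
  have h5 : c (Lf G (G.nxt.symm p)) = κ * (c (Lf G p) + c (Rf G (G.op p))) := by
    have h6 : c (Lf G p) + c (Rf G (G.op p)) = c (Lf G (G.nxt.symm p)) / κ := sub_eq_zero.1 h3
    rw [h6, mul_div_cancel₀ _ hκ]
  refine ⟨h5, ?_⟩
  linear_combination hrow p hp + ζ * h5

end Pool.Agent.Helper30.GD
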