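import Pool.Agent.Helper85.GD.Far
import Pool.Agent.Helper57.GD.Half

/-!
# GPOLY: all zeros of the Conway polynomial of a positive plane diagram are bounded by the number of Seifert circles
-/

set_option autoImplicit false

namespace Pool.Agent.Helper30.GD

open Polynomial Pool.Agent.Helper85.Exp Pool.Agent.Helper2.PD Pool.Agent.Helper57.PD Pool.Agent.Helper16.PD
  Pool.Agent.Helper60.EV2 Pool.Agent.Helper27.EV2

variable {P : Type} [Fintype P] {G : Sh P} {s : ℕ}

/-- **The zeros are bounded.** -/
theorem fz (h : Good s G) (hne : Nonempty P) {nab : Dg G → ℤ[X]} (hn : Cs nab) :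
    Pool.Agent.Helper57.GD.FZ ((1003 * (s : ℝ)) ^ 2) (nab (allPos G)) := by
  classical
  intro z hz
  by_contra hcon
  push Not at hcon
  obtain ⟨b⟩ := hne
  obtain ⟨α, nab', e, hn', -, -, hform, hA⟩ := one_shadow h b
  have : Nonempty P := ⟨b⟩
  have hu : nab = nab' := Cs.unique hn hn'
  rw [hu] at hz
  refine Pool.Agent.Helper85.GD.nab_far h b hform hA ?_ hz
  exact (pow_le_pow_iff_left₀ (by positivity) (norm_nonneg z) two_ne_zero).1 hcon.le

end Pool.Agent.Helper30.GD
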